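import Mathlib

namespace Pool.Agent.P.MP_ba1a3e_pr

open MeasureTheory Real

/-- The density of the Gaussian mixture `μ * N(0, I_d)` on `ℝ^d`. -/
noncomputable def mixDensity {d : ℕ} (μ : Measure (EuclideanSpace ℝ (Fin d)))
    (x : EuclideanSpace ℝ (Fin d)) : ℝ :=
  ∫ z, (2 * π) ^ (-(d : ℝ) / 2) * exp (-‖x - z‖ ^ 2 / 2) ∂μ

end Pool.Agent.P.MP_ba1a3e_pr
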