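import Mathlib

namespace Pool.Agent.P.MP_ba1a3e_pr

open MeasureTheory ProbabilityTheory Real
open scoped ENNReal RealInnerProductSpace

variable {E : Type} [NormedAddCommGroup E] [InnerProductSpace ℝ E] [FiniteDimensional ℝ E]
  [MeasurableSpace E] [BorelSpace E]

/-- Moment generating function of a linear form under the standard Gaussian. -/
theorem lintegral_exp_dual (T : StrongDual ℝ E) (t : ℝ) :
    ∫⁻ y, ENNReal.ofReal (exp (t * T y)) ∂stdGaussian E =
      ENNReal.ofReal (exp (t ^ 2 * ‖T‖ ^ 2 / 2)) := by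
  have h1 : (stdGaussian E).map T = gaussianReal 0 (‖T‖ ^ 2).toNNReal := by
    rw [IsGaussian.map_eq_gaussianReal, integral_strongDual_stdGaussian,
      variance_dual_stdGaussian]
  have h2 : Integrable (fun y => exp (t * T y)) (stdGaussian E) := by
    have := integrable_exp_mul_gaussianReal (μ := 0) (v := (‖T‖ ^ 2).toNNReal) t
    rw [← h1] at this
    exact this.comp_measurable T.continuous.measurable
  rw [← ofReal_integral_eq_lintegral_ofReal h2 (ae_of_all _ fun _ => (exp_pos _).le)]
  congr 1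
  have h3 := mgf_gaussianReal (p := stdGaussian E) (X := T) h1 t
  rw [mgf] at h3
  rw [h3, Real.coe_toNNReal _ (sq_nonneg _)]
  congr 1
  ring

theorem lintegral_exp_inner (w : E) :
    ∫⁻ y, ENNReal.ofReal (exp ⟪y, w⟫) ∂stdGaussian E = ENNReal.ofReal (exp (‖w‖ ^ 2 / 2)) := by
  have := lintegral_exp_dual (innerSL ℝ w) 1
  simpa [real_inner_comm] using this

/-- Jensen's inequality for the exponential on an interval. -/
theorem exp_integral_le {h : ℝ → ℝ} {T K : ℝ} (hT : 0 < T) (hm : Measurable h)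
    (hK : ∀ θ, |h θ| ≤ K) :
    ENNReal.ofReal (exp (∫ θ in (0 : ℝ)..T, h θ)) ≤
      ENNReal.ofReal T⁻¹ * ∫⁻ θ in Set.Ioc 0 T, ENNReal.ofReal (exp (T * h θ)) := by
  set c := ∫ θ in (0 : ℝ)..T, h θ with hc
  have hi : IntegrableOn h (Set.Ioc 0 T) :=
    Measure.integrableOn_of_bounded (M := K) (by simp) hm.aestronglyMeasurable
      (ae_of_all _ fun θ => hK θ)
  have hi2 : IntegrableOn (fun θ => exp (T * h θ)) (Set.Ioc 0 T) := by
    refine Measure.integrableOn_of_bounded (M := exp (T * K)) (by simp)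
      (by fun_prop) (ae_of_all _ fun θ => ?_)
    rw [Real.norm_eq_abs, abs_of_pos (exp_pos _)]
    exact exp_le_exp.2 (mul_le_mul_of_nonneg_left (le_of_abs_le (hK θ)) hT.le)
  rw [← ofReal_integral_eq_lintegral_ofReal hi2 (ae_of_all _ fun _ => (exp_pos _).le),
    ← ENNReal.ofReal_mul (inv_nonneg.2 hT.le)]
  refine ENNReal.ofReal_le_ofReal ?_
  have h1 : ∫ θ in Set.Ioc 0 T, exp c * (1 - c + T * h θ) ≤
      ∫ θ in Set.Ioc 0 T, exp (T * h θ) := by
    refine integral_mono (((integrable_const _).add (hi.const_mul T)).const_mul _) hi2 fun θ => ?_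
    have := add_one_le_exp (T * h θ - c)
    calc exp c * (1 - c + T * h θ) = exp c * (T * h θ - c + 1) := by ring
      _ ≤ exp c * exp (T * h θ - c) := mul_le_mul_of_nonneg_left this (exp_pos _).le
      _ = exp (T * h θ) := by rw [← exp_add]; congr 1; ring
  rw [integral_const_mul, integral_add (integrable_const _) (hi.const_mul T), integral_const_mul,
    ← intervalIntegral.integral_of_le hT.le, ← intervalIntegral.integral_of_le hT.le, ← hc] at h1
  simp only [intervalIntegral.integral_const, sub_zero, smul_eq_mul] at h1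
  have h2 : exp c * (T * (1 - c) + T * c) = T * exp c := by ring
  rw [h2] at h1
  calc exp c = T⁻¹ * (T * exp c) := by field_simp
    _ ≤ _ := mul_le_mul_of_nonneg_left h1 (inv_nonneg.2 hT.le)

/-- The Maurey-Pisier inequality, exponential form. -/
theorem maurey_pisier {F : E → ℝ} (hF : Differentiable ℝ F) {K : ℝ}
    (hK : ∀ x, ‖fderiv ℝ F x‖ ≤ K) :
    ∫⁻ p : E × E, ENNReal.ofReal (exp (F p.2 - F p.1)) ∂(stdGaussian E).prod (stdGaussian E) ≤
      ∫⁻ x, ENNReal.ofReal (exp (π ^ 2 * ‖fderiv ℝ F x‖ ^ 2 / 8)) ∂stdGaussian E := by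
  set γ := stdGaussian E with hγ
  let G : E × E → ℝ := fun q => fderiv ℝ F q.1 q.2
  have hG : Measurable G :=
    ContinuousLinearMap.measurable_apply₂.comp
      (((measurable_fderiv ℝ F).comp measurable_fst).prodMk measurable_snd)
  let R : ℝ × (E × E) → E × E := fun a => ContinuousLinearMap.rotation a.1 a.2
  have hR : Measurable R := by
    have : Continuous R := by
      simp only [R, ContinuousLinearMap.rotation_apply]
      fun_prop
    exact this.measurable
  have hpi : (0 : ℝ) < π / 2 := by positivity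
  have step1 : ∀ p : E × E, ENNReal.ofReal (exp (F p.2 - F p.1)) ≤
      ENNReal.ofReal (π / 2)⁻¹ *
        ∫⁻ θ in Set.Ioc 0 (π / 2), ENNReal.ofReal (exp (π / 2 * G (R (θ, p)))) := by
    rintro ⟨x, y⟩
    have hm : Measurable fun θ => G (R (θ, (x, y))) := hG.comp (hR.comp measurable_prodMk_right)
    have hb : ∀ θ, |G (R (θ, (x, y)))| ≤ K * (‖x‖ + ‖y‖) := by
      intro θ
      simp only [G, R, ContinuousLinearMap.rotation_apply]
      rw [← Real.norm_eq_abs]
      refine ((fderiv ℝ F _).le_opNorm _).trans (mul_le_mul (hK _) ?_ (norm_nonneg _)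
        ((norm_nonneg _).trans (hK 0)))
      refine (norm_add_le _ _).trans (add_le_add ?_ ?_)
      · rw [norm_smul, norm_neg, Real.norm_eq_abs]
        exact mul_le_of_le_one_left (norm_nonneg _) (abs_sin_le_one θ)
      · rw [norm_smul, Real.norm_eq_abs]
        exact mul_le_of_le_one_left (norm_nonneg _) (abs_cos_le_one θ)
    have hd : ∀ θ, HasDerivAt (fun θ => F (cos θ • x + sin θ • y)) (G (R (θ, (x, y)))) θ := by
      intro θ
      have h1 : HasDerivAt (fun θ => cos θ • x + sin θ • y) (-sin θ • x + cos θ • y) θ :=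
        ((hasDerivAt_cos θ).smul_const x).add ((hasDerivAt_sin θ).smul_const y)
      exact (hF _).hasFDerivAt.comp_hasDerivAt θ h1
    have hi : IntervalIntegrable (fun θ => G (R (θ, (x, y)))) volume 0 (π / 2) := by
      rw [intervalIntegrable_iff_integrableOn_Ioc_of_le hpi.le]
      exact Measure.integrableOn_of_bounded (M := K * (‖x‖ + ‖y‖)) (by simp)
        hm.aestronglyMeasurable (ae_of_all _ fun θ => hb θ)
    have h2 := intervalIntegral.integral_eq_sub_of_hasDerivAt (fun θ _ => hd θ) hi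
    simp only [cos_pi_div_two, sin_pi_div_two, cos_zero, sin_zero, zero_smul, one_smul, zero_add,
      add_zero] at h2
    change ENNReal.ofReal (exp (F y - F x)) ≤ _
    rw [← h2]
    exact exp_integral_le hpi hm hb
  have hmeas : Measurable fun q : E × E => ENNReal.ofReal (exp (π / 2 * G q)) := by fun_prop
  have step2 : ∀ θ : ℝ, ∫⁻ p, ENNReal.ofReal (exp (π / 2 * G (R (θ, p)))) ∂γ.prod γ =
      ∫⁻ x, ENNReal.ofReal (exp (π ^ 2 * ‖fderiv ℝ F x‖ ^ 2 / 8)) ∂γ := by
    intro θ
    have h1 : (γ.prod γ).map (ContinuousLinearMap.rotation θ) = γ.prod γ :=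
      IsGaussian.map_rotation_eq_self (by simp [hγ]) θ
    have h2 := lintegral_map (μ := γ.prod γ) hmeas
      (ContinuousLinearMap.rotation θ : E × E →L[ℝ] E × E).continuous.measurable
    rw [h1] at h2
    change ∫⁻ p, ENNReal.ofReal (exp (π / 2 * G (ContinuousLinearMap.rotation θ p))) ∂γ.prod γ = _
    rw [← h2, lintegral_prod _ hmeas.aemeasurable]
    refine lintegral_congr fun x => ?_
    simp only [G]
    rw [hγ, lintegral_exp_dual]
    congr 2
    ring
  calc _ ≤ ∫⁻ p, ENNReal.ofReal (π / 2)⁻¹ *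
        ∫⁻ θ in Set.Ioc 0 (π / 2), ENNReal.ofReal (exp (π / 2 * G (R (θ, p)))) ∂volume
          ∂γ.prod γ := lintegral_mono step1
    _ = ENNReal.ofReal (π / 2)⁻¹ * ∫⁻ θ in Set.Ioc 0 (π / 2),
          ∫⁻ p, ENNReal.ofReal (exp (π / 2 * G (R (θ, p)))) ∂γ.prod γ := by
        rw [lintegral_const_mul' _ _ ENNReal.ofReal_ne_top]
        congr 1
        refine (lintegral_lintegral_swap ?_).symm
        exact (hmeas.comp hR).aemeasurable
    _ = _ := by
        simp_rw [step2]
        rw [lintegral_const, Measure.restrict_apply_univ, Real.volume_Ioc, sub_zero, mul_comm,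
          mul_assoc, ← ENNReal.ofReal_mul hpi.le, mul_inv_cancel₀ hpi.ne', ENNReal.ofReal_one,
          mul_one]

end Pool.Agent.P.MP_ba1a3e_pr
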