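import Mathlib
import Pool.Agent.P.MP_ba1a3e_pr.Gauss

namespace Pool.Agent.P.MP_ba1a3e_pr

open MeasureTheory ProbabilityTheory Real
open scoped ENNReal RealInnerProductSpace Topology

theorem hasDerivAt_max_sq (u : ℝ) : HasDerivAt (fun u : ℝ => max u 0 ^ 2) (2 * max u 0) u := by
  rcases lt_trichotomy u 0 with h | rfl | h
  · rw [max_eq_right h.le, mul_zero]
    refine (hasDerivAt_const u (0 : ℝ)).congr_of_eventuallyEq ?_
    filter_upwards [Iio_mem_nhds h] with v hv
    rw [max_eq_right (le_of_lt hv)]; simp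
  · rw [max_self, mul_zero, hasDerivAt_iff_isLittleO]
    simp only [max_self, ne_eq, OfNat.ofNat_ne_zero, not_false_eq_true, zero_pow, sub_zero,
      smul_eq_mul, mul_zero]
    refine Asymptotics.IsBigO.trans_isLittleO (g := fun v : ℝ => v ^ 2) ?_
      (Asymptotics.isLittleO_pow_id (by norm_num))
    refine Asymptotics.IsBigO.of_bound 1 (Filter.Eventually.of_forall fun v => ?_)
    rw [one_mul, norm_pow, norm_pow]
    refine pow_le_pow_left₀ (norm_nonneg _) ?_ 2
    rw [Real.norm_eq_abs, Real.norm_eq_abs, abs_of_nonneg (le_max_right _ _)]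
    exact max_le (le_abs_self v) (abs_nonneg v)
  · rw [max_eq_left h.le]
    have : HasDerivAt (fun v : ℝ => v ^ 2) (2 * u) u := by simpa using hasDerivAt_pow 2 u
    refine this.congr_of_eventuallyEq ?_
    filter_upwards [Ioi_mem_nhds h] with v hv
    rw [max_eq_left (le_of_lt hv)]

/-- A differentiable version of the positive part. -/
noncomputable def psi (u : ℝ) : ℝ := √(1 + max u 0 ^ 2) - 1

theorem hasDerivAt_psi (u : ℝ) : HasDerivAt psi (max u 0 / √(1 + max u 0 ^ 2)) u := by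
  have h1 : (1 + max u 0 ^ 2 : ℝ) ≠ 0 := by positivity
  have := (((hasDerivAt_max_sq u).const_add 1).sqrt h1).sub_const 1
  have h2 : 2 * max u 0 / (2 * √(1 + max u 0 ^ 2)) = max u 0 / √(1 + max u 0 ^ 2) :=
    mul_div_mul_left _ _ two_ne_zero
  rw [h2] at this
  exact this

theorem psi_deriv_le (u : ℝ) : |max u 0 / √(1 + max u 0 ^ 2)| ≤ 1 := by
  have h1 : 0 < √(1 + max u 0 ^ 2) := sqrt_pos.2 (by positivity)
  rw [abs_of_nonneg (by positivity), div_le_one h1]
  exact le_sqrt_of_sq_le (by linarith)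

theorem psi_of_nonpos {u : ℝ} (h : u ≤ 0) : psi u = 0 := by simp [psi, max_eq_right h]

theorem le_psi (u : ℝ) : u - 1 ≤ psi u := by
  have : max u 0 ≤ √(1 + max u 0 ^ 2) := le_sqrt_of_sq_le (by linarith)
  have := le_max_left u 0
  unfold psi
  linarith

variable {E : Type} [NormedAddCommGroup E] [InnerProductSpace ℝ E] [FiniteDimensional ℝ E]
  [MeasurableSpace E] [BorelSpace E]

/-- Relative Gaussian tail bound for a function with bounded gradient. -/
theorem relative_tail {L : E → ℝ} (hL : Differentiable ℝ L) {K : ℝ}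
    (hK : ∀ x, ‖fderiv ℝ L x‖ ≤ K) {c : ℝ} (hc : 0 ≤ c)
    (ha : stdGaussian E {x | 0 < L x} ≤ 2⁻¹) :
    ∫⁻ x in {x | 0 < L x}, ENNReal.ofReal (exp (c * psi (L x))) ∂stdGaussian E ≤
      4 * ENNReal.ofReal (exp (π ^ 2 * (c * K) ^ 2 / 8)) * stdGaussian E {x | 0 < L x} := by
  set γ := stdGaussian E with hγ
  set A := {x | 0 < L x} with hA
  have hAm : MeasurableSet A := measurableSet_lt measurable_const hL.continuous.measurable
  let F : E → ℝ := fun x => c * psi (L x)
  have hF : ∀ x, HasFDerivAt F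
      ((c * (max (L x) 0 / √(1 + max (L x) 0 ^ 2))) • fderiv ℝ L x) x := by
    intro x
    have := ((hasDerivAt_psi (L x)).comp_hasFDerivAt x (hL x).hasFDerivAt).const_mul c
    rw [smul_smul] at this
    exact this
  have hFd : Differentiable ℝ F := fun x => (hF x).differentiableAt
  have hFm : Measurable F := hFd.continuous.measurable
  have hK0 : 0 ≤ K := (norm_nonneg _).trans (hK 0)
  have hF1 : ∀ x, ‖fderiv ℝ F x‖ ≤ c * K := by
    intro x
    rw [(hF x).fderiv, norm_smul, Real.norm_eq_abs, abs_mul, abs_of_nonneg hc]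
    exact mul_le_mul (mul_le_of_le_one_right hc (psi_deriv_le _)) (hK x) (norm_nonneg _) hc
  have hF2 : ∀ x ∈ Aᶜ, fderiv ℝ F x = 0 := by
    intro x hx
    have : L x ≤ 0 := not_lt.1 hx
    rw [(hF x).fderiv, max_eq_right this]
    simp
  have hF3 : ∀ x ∈ Aᶜ, F x = 0 := by
    intro x hx
    have : L x ≤ 0 := not_lt.1 hx
    simp [F, psi_of_nonpos this]
  have hMP := maurey_pisier hFd hF1
  rw [← hγ] at hMP
  set κ := ENNReal.ofReal (exp (π ^ 2 * (c * K) ^ 2 / 8)) with hκ
  set u := ∫⁻ x in A, ENNReal.ofReal (exp (F x)) ∂γ with hu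
  set a := γ A with ha'
  set b := γ Aᶜ with hb'
  have hab : a + b = 1 := by rw [ha', hb', measure_add_measure_compl hAm, measure_univ]
  have h1 : ∫⁻ x, ENNReal.ofReal (exp (π ^ 2 * ‖fderiv ℝ F x‖ ^ 2 / 8)) ∂γ ≤ κ * a + b := by
    rw [← lintegral_add_compl _ hAm]
    refine add_le_add ?_ ?_
    · rw [← setLIntegral_const]
      refine lintegral_mono fun x => ENNReal.ofReal_le_ofReal (exp_le_exp.2 ?_)
      have := pow_le_pow_left₀ (norm_nonneg _) (hF1 x) 2
      have h2 : 0 ≤ π ^ 2 := sq_nonneg _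
      nlinarith
    · rw [setLIntegral_congr_fun hAm.compl (g := fun _ => 1) fun x hx => by simp [hF2 x hx]]
      simp [hb']
  have h2 : ∫⁻ x, ENNReal.ofReal (exp (F x)) ∂γ = u + b := by
    rw [← lintegral_add_compl _ hAm,
      setLIntegral_congr_fun hAm.compl (g := fun _ => 1) fun x hx => by simp [hF3 x hx]]
    simp [hb', hu]
  have h3 : b ≤ ∫⁻ x, ENNReal.ofReal (exp (-F x)) ∂γ := by
    rw [← lintegral_add_compl _ hAm,
      setLIntegral_congr_fun hAm.compl (g := fun _ => 1) fun x hx => by simp [hF3 x hx]]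
    simp [hb']
  have h4 : ∫⁻ p : E × E, ENNReal.ofReal (exp (F p.2 - F p.1)) ∂γ.prod γ =
      (∫⁻ x, ENNReal.ofReal (exp (-F x)) ∂γ) * ∫⁻ x, ENNReal.ofReal (exp (F x)) ∂γ := by
    rw [← lintegral_prod_mul (by fun_prop) (by fun_prop)]
    refine lintegral_congr fun p => ?_
    rw [← ENNReal.ofReal_mul (exp_pos _).le, ← exp_add]
    congr 2
    ring
  have h5 : b * (u + b) ≤ κ * a + b * (a + b) := by
    rw [hab, mul_one, ← h2]
    exact ((mul_le_mul_left h3 _).trans (h4 ▸ hMP)).trans h1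
  have hb1 : b ≤ 1 := hab ▸ le_add_self
  have hbb : b * b ≠ ∞ := ENNReal.mul_ne_top (measure_ne_top _ _) (measure_ne_top _ _)
  have h6 : b * u ≤ κ * a + b * a := by
    rw [mul_add, mul_add, ← add_assoc] at h5
    exact (ENNReal.add_le_add_iff_right hbb).1 h5
  have hκ1 : 1 ≤ κ := ENNReal.one_le_ofReal.2 (one_le_exp (by positivity))
  have hb2 : 2⁻¹ ≤ b := by
    have : 2⁻¹ + 2⁻¹ ≤ 2⁻¹ + b := by
      rw [ENNReal.inv_two_add_inv_two, ← hab]
      exact add_le_add ha le_rfl
    exact (ENNReal.add_le_add_iff_left (by simp)).1 this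
  have h7 : 2⁻¹ * u ≤ 2 * κ * a := by
    calc 2⁻¹ * u ≤ b * u := mul_le_mul_left hb2 _
      _ ≤ κ * a + b * a := h6
      _ ≤ κ * a + κ * a := add_le_add le_rfl (mul_le_mul_left (hb1.trans hκ1) _)
      _ = 2 * κ * a := by ring
  calc u = 2 * (2⁻¹ * u) := by
        rw [← mul_assoc, ENNReal.mul_inv_cancel (by simp) (by simp), one_mul]
    _ ≤ 2 * (2 * κ * a) := mul_le_mul_right h7 _
    _ = 4 * κ * a := by ring

end Pool.Agent.P.MP_ba1a3e_pr
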