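import Mathlib
import Pool.Agent.P.MP_ba1a3e_pr.Tail

namespace Pool.Agent.P.MP_ba1a3e_pr

open MeasureTheory ProbabilityTheory Real
open scoped ENNReal RealInnerProductSpace Topology

variable {E : Type} [NormedAddCommGroup E] [InnerProductSpace ℝ E] [FiniteDimensional ℝ E]
  [MeasurableSpace E] [BorelSpace E]

/-- The standard Gaussian density. -/
noncomputable def phi (x : E) : ℝ :=
  (2 * π) ^ (-(Module.finrank ℝ E : ℝ) / 2) * exp (-‖x‖ ^ 2 / 2)

omit [FiniteDimensional ℝ E] [MeasurableSpace E] [BorelSpace E] in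
theorem phi_pos (x : E) : 0 < phi x := by unfold phi; positivity

omit [FiniteDimensional ℝ E] [MeasurableSpace E] [BorelSpace E] in
theorem continuous_phi : Continuous (phi : E → ℝ) := by unfold phi; fun_prop

theorem integrable_phi : Integrable (phi : E → ℝ) := by
  have h := (GaussianFourier.integrable_cexp_neg_mul_sq_norm_add (V := E) (b := 1 / 2)
    (by norm_num) 0 0).norm
  refine (h.const_mul ((2 * π) ^ (-(Module.finrank ℝ E : ℝ) / 2))).congr
    (ae_of_all _ fun x => ?_)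
  simp only [phi, Complex.norm_exp]
  congr 2
  have : (-(1 / 2 : ℂ) * (‖x‖ : ℂ) ^ 2 + 0 * (⟪(0 : E), x⟫ : ℝ)) = ((-‖x‖ ^ 2 / 2 : ℝ) : ℂ) := by
    push_cast; ring
  rw [this, Complex.ofReal_re]

theorem stdGaussian_eq_withDensity :
    stdGaussian E = (volume : Measure E).withDensity fun x => ENNReal.ofReal (phi x) := by
  have : IsFiniteMeasure ((volume : Measure E).withDensity fun x => ENNReal.ofReal (phi x)) :=
    isFiniteMeasure_withDensity_ofReal integrable_phi.2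
  refine Measure.ext_of_charFun (funext fun t => ?_)
  rw [charFun_stdGaussian, charFun_apply,
    integral_withDensity_eq_integral_toReal_smul (by have := continuous_phi (E := E); fun_prop)
      (ae_of_all _ fun _ => ENNReal.ofReal_lt_top)]
  have h := GaussianFourier.integral_cexp_neg_mul_sq_norm_add (V := E) (b := 1 / 2)
    (by norm_num) Complex.I t
  have h2 : ∀ x : E, (ENNReal.ofReal (phi x)).toReal • Complex.exp (⟪x, t⟫ * Complex.I) =
      (((2 * π) ^ (-(Module.finrank ℝ E : ℝ) / 2) : ℝ) : ℂ) *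
        Complex.exp (-(1 / 2 : ℂ) * (‖x‖ : ℂ) ^ 2 + Complex.I * (⟪t, x⟫ : ℝ)) := by
    intro x
    rw [ENNReal.toReal_ofReal (phi_pos x).le, phi, Complex.real_smul, Complex.ofReal_mul,
      Complex.ofReal_exp, mul_assoc, ← Complex.exp_add, real_inner_comm]
    congr 2
    push_cast
    ring
  simp_rw [h2]
  rw [integral_const_mul, h, ← mul_assoc]
  have h3 : (((2 * π) ^ (-(Module.finrank ℝ E : ℝ) / 2) : ℝ) : ℂ) *
      ((π : ℂ) / (1 / 2)) ^ ((Module.finrank ℝ E : ℂ) / 2) = 1 := by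
    have h4 : ((π : ℂ) / (1 / 2)) = ((2 * π : ℝ) : ℂ) := by push_cast; ring
    have h5 : ((Module.finrank ℝ E : ℂ) / 2) = (((Module.finrank ℝ E : ℝ) / 2 : ℝ) : ℂ) := by
      push_cast; ring
    rw [h4, h5, ← Complex.ofReal_cpow (by positivity), ← Complex.ofReal_mul,
      ← rpow_add (by positivity), neg_div, neg_add_cancel, rpow_zero, Complex.ofReal_one]
  rw [h3, one_mul, Complex.I_sq]
  congr 1
  ring

/-- The mixture density. -/
noncomputable def mixE (μ : Measure E) (x : E) : ℝ := ∫ z, phi (x - z) ∂μ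

/-- The density of the mixture relative to the standard Gaussian. -/
noncomputable def gfun (μ : Measure E) (x : E) : ℝ := ∫ z, exp (⟪x, z⟫ - ‖z‖ ^ 2 / 2) ∂μ

omit [FiniteDimensional ℝ E] [BorelSpace E] in
theorem mixE_eq (μ : Measure E) (x : E) : mixE μ x = phi x * gfun μ x := by
  rw [mixE, gfun, ← integral_const_mul]
  congr 1
  funext z
  rw [phi, phi, mul_assoc, ← exp_add, norm_sub_sq_real]
  congr 2
  ring

theorem integrable_phi_sub (μ : Measure E) [IsProbabilityMeasure μ] (x : E) :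
    Integrable (fun z => phi (x - z)) μ := by
  refine Integrable.of_bound (C := (2 * π) ^ (-(Module.finrank ℝ E : ℝ) / 2))
    (by have := continuous_phi (E := E); fun_prop) (ae_of_all _ fun z => ?_)
  rw [Real.norm_eq_abs, abs_of_pos (phi_pos _), phi]
  refine mul_le_of_le_one_right (by positivity) (exp_le_one_iff.2 ?_)
  have := sq_nonneg ‖x - z‖
  linarith

/-- Integration against the mixture density. -/
theorem lintegral_mixE (μ : Measure E) [IsProbabilityMeasure μ] {h : E → ℝ≥0∞}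
    (hh : Measurable h) :
    ∫⁻ x, ENNReal.ofReal (mixE μ x) * h x = ∫⁻ z, ∫⁻ y, h (z + y) ∂stdGaussian E ∂μ := by
  have hc := continuous_phi (E := E)
  have h1 : ∀ x, ENNReal.ofReal (mixE μ x) * h x =
      ∫⁻ z, ENNReal.ofReal (phi (x - z)) * h x ∂μ := by
    intro x
    rw [mixE, ofReal_integral_eq_lintegral_ofReal (integrable_phi_sub μ x)
      (ae_of_all _ fun _ => (phi_pos _).le), lintegral_mul_const _ (by fun_prop)]
  simp_rw [h1]
  rw [lintegral_lintegral_swap (by fun_prop)]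
  refine lintegral_congr fun z => ?_
  rw [stdGaussian_eq_withDensity, lintegral_withDensity_eq_lintegral_mul _ (by fun_prop)
    (by fun_prop), ← lintegral_add_left_eq_self _ z]
  simp

variable {M : ℝ} {μ : Measure E} [IsProbabilityMeasure μ]

theorem integrable_gfun (hμ : ∀ᵐ z ∂μ, ‖z‖ ≤ M) (x : E) :
    Integrable (fun z => exp (⟪x, z⟫ - ‖z‖ ^ 2 / 2)) μ := by
  refine Integrable.of_bound (C := exp (‖x‖ * M)) (by fun_prop) ?_
  filter_upwards [hμ] with z hz
  rw [Real.norm_eq_abs, abs_of_pos (exp_pos _)]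
  refine exp_le_exp.2 ?_
  have h1 := real_inner_le_norm x z
  have h2 := mul_le_mul_of_nonneg_left hz (norm_nonneg x)
  have := sq_nonneg ‖z‖
  linarith

theorem gfun_pos (hμ : ∀ᵐ z ∂μ, ‖z‖ ≤ M) (x : E) : 0 < gfun μ x :=
  integral_exp_pos (integrable_gfun hμ x)

theorem gfun_le (hμ : ∀ᵐ z ∂μ, ‖z‖ ≤ M) (x y : E) :
    gfun μ x ≤ exp (M * ‖x - y‖) * gfun μ y := by
  rw [gfun, gfun, ← integral_const_mul]
  refine integral_mono_ae (integrable_gfun hμ x) ((integrable_gfun hμ y).const_mul _) ?_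
  filter_upwards [hμ] with z hz
  rw [← exp_add]
  refine exp_le_exp.2 ?_
  have h1 := real_inner_le_norm (x - y) z
  have h2 := mul_le_mul_of_nonneg_left hz (norm_nonneg (x - y))
  rw [inner_sub_left] at h1
  linarith

theorem log_gfun_lip (hμ : ∀ᵐ z ∂μ, ‖z‖ ≤ M) (x y : E) :
    |log (gfun μ x) - log (gfun μ y)| ≤ M * ‖x - y‖ := by
  have key : ∀ x y : E, log (gfun μ x) - log (gfun μ y) ≤ M * ‖x - y‖ := by
    intro x y
    have := log_le_log (gfun_pos hμ x) (gfun_le hμ x y)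
    rw [log_mul (exp_pos _).ne' (gfun_pos hμ y).ne', log_exp] at this
    linarith
  refine abs_sub_le_iff.2 ⟨key x y, ?_⟩
  rw [norm_sub_rev]
  exact key y x

theorem differentiable_gfun (hμ : ∀ᵐ z ∂μ, ‖z‖ ≤ M) :
    Differentiable ℝ (gfun μ) := by
  intro x₀
  refine (hasFDerivAt_integral_of_dominated_of_fderiv_le (𝕜 := ℝ) (μ := μ)
    (F := fun x z => exp (⟪x, z⟫ - ‖z‖ ^ 2 / 2))
    (F' := fun x z => exp (⟪x, z⟫ - ‖z‖ ^ 2 / 2) • innerSL ℝ z)
    (bound := fun _ => exp ((‖x₀‖ + 1) * M) * M) (Metric.ball_mem_nhds x₀ one_pos)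
    (Filter.Eventually.of_forall fun x => by fun_prop) (integrable_gfun hμ x₀)
    (Continuous.aestronglyMeasurable (by fun_prop)) ?_ (integrable_const _) ?_).differentiableAt
  · filter_upwards [hμ] with z hz x hx
    rw [norm_smul, Real.norm_eq_abs, abs_of_pos (exp_pos _), innerSL_apply_norm]
    refine mul_le_mul (exp_le_exp.2 ?_) hz (norm_nonneg _) (exp_pos _).le
    have h0 : ‖x‖ ≤ ‖x₀‖ + 1 := by
      have := norm_le_insert' x x₀
      rw [mem_ball_iff_norm] at hx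
      linarith
    have h1 := real_inner_le_norm x z
    have h2 := mul_le_mul h0 hz (norm_nonneg z) (by positivity)
    have := sq_nonneg ‖z‖
    linarith
  · refine ae_of_all _ fun z x _ => ?_
    have h1 : HasFDerivAt (fun x : E => ⟪x, z⟫) (innerSL ℝ z) x := by
      have := (innerSL ℝ z).hasFDerivAt (x := x)
      refine this.congr_of_eventuallyEq (Filter.Eventually.of_forall fun y => ?_)
      simp [real_inner_comm]
    exact (h1.sub_const _).exp

theorem exp_le_gfun (hμ : ∀ᵐ z ∂μ, ‖z‖ ≤ M) :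
    ∃ m : E, ‖m‖ ≤ M ∧ ∀ x, exp (⟪x, m⟫ - M ^ 2 / 2) ≤ gfun μ x := by
  have hi : Integrable (fun z : E => z) μ := Integrable.of_bound (by fun_prop) M hμ
  refine ⟨∫ z, z ∂μ, ?_, fun x => ?_⟩
  · have := norm_integral_le_of_norm_le_const hμ
    simpa using this
  · set c := ⟪x, ∫ z, z ∂μ⟫ - M ^ 2 / 2 with hc
    have h1 : ∫ z, exp c * (1 - ⟪x, ∫ z, z ∂μ⟫ + ⟪x, z⟫) ∂μ ≤ gfun μ x := by
      refine integral_mono_ae (((integrable_const _).add (hi.const_inner x)).const_mul _)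
        (integrable_gfun hμ x) ?_
      filter_upwards [hμ] with z hz
      have h2 := add_one_le_exp (⟪x, z⟫ - ‖z‖ ^ 2 / 2 - c)
      have h3 : ‖z‖ ^ 2 ≤ M ^ 2 := pow_le_pow_left₀ (norm_nonneg _) hz 2
      calc exp c * (1 - ⟪x, ∫ z, z ∂μ⟫ + ⟪x, z⟫)
          ≤ exp c * exp (⟪x, z⟫ - ‖z‖ ^ 2 / 2 - c) :=
            mul_le_mul_of_nonneg_left (by rw [hc] at h2 ⊢; linarith) (exp_pos _).le
        _ = _ := by rw [← exp_add]; congr 1; ring
    rw [integral_const_mul, integral_add (integrable_const _) (hi.const_inner x),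
      integral_inner hi] at h1
    simpa using h1

variable {ν : Measure E} [IsProbabilityMeasure ν]

/-- The mean of the likelihood ratio under each component is bounded. -/
theorem lintegral_ratio_le (hM : 0 ≤ M) (hμ : ∀ᵐ z ∂μ, ‖z‖ ≤ M) (hν : ∀ᵐ z ∂ν, ‖z‖ ≤ M)
    {z : E} (hz : ‖z‖ ≤ M) :
    ∫⁻ y, ENNReal.ofReal (gfun μ (z + y) / gfun ν (z + y)) ∂stdGaussian E ≤
      ENNReal.ofReal (exp (4 * M ^ 2)) := by
  obtain ⟨m, hm, hm'⟩ := exp_le_gfun hν
  have h1 : ∀ x, ENNReal.ofReal (gfun μ x / gfun ν x) ≤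
      ∫⁻ v, ENNReal.ofReal (exp (⟪x, v - m⟫ - ‖v‖ ^ 2 / 2 + M ^ 2 / 2)) ∂μ := by
    intro x
    have h2 : gfun μ x / gfun ν x ≤ gfun μ x / exp (⟪x, m⟫ - M ^ 2 / 2) :=
      div_le_div_of_nonneg_left (gfun_pos hμ x).le (exp_pos _) (hm' x)
    refine (ENNReal.ofReal_le_ofReal h2).trans (le_of_eq ?_)
    rw [gfun, ← integral_div, ofReal_integral_eq_lintegral_ofReal
      ((integrable_gfun hμ x).div_const _) (ae_of_all _ fun _ => by positivity)]
    refine lintegral_congr fun v => ?_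
    rw [← exp_sub, inner_sub_right]
    congr 2
    ring
  refine (lintegral_mono fun y => h1 (z + y)).trans ?_
  rw [lintegral_lintegral_swap (by fun_prop)]
  refine (lintegral_mono_ae (g := fun _ => ENNReal.ofReal (exp (4 * M ^ 2))) ?_).trans (by simp)
  filter_upwards [hμ] with v hv
  have h3 : ∀ y : E, ENNReal.ofReal (exp (⟪z + y, v - m⟫ - ‖v‖ ^ 2 / 2 + M ^ 2 / 2)) =
      ENNReal.ofReal (exp (⟪z, v - m⟫ - ‖v‖ ^ 2 / 2 + M ^ 2 / 2)) *
        ENNReal.ofReal (exp ⟪y, v - m⟫) := by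
    intro y
    rw [← ENNReal.ofReal_mul (exp_pos _).le, ← exp_add, inner_add_left]
    congr 2
    ring
  simp_rw [h3]
  rw [lintegral_const_mul' _ _ ENNReal.ofReal_ne_top, lintegral_exp_inner,
    ← ENNReal.ofReal_mul (exp_pos _).le, ← exp_add]
  refine ENNReal.ofReal_le_ofReal (exp_le_exp.2 ?_)
  rw [norm_sub_sq_real, inner_sub_right]
  have b : ∀ a b : E, ‖a‖ ≤ M → ‖b‖ ≤ M → |⟪a, b⟫| ≤ M ^ 2 := fun a b ha hb =>
    (abs_real_inner_le_norm a b).trans (by rw [sq]; exact mul_le_mul ha hb (norm_nonneg _) hM)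
  have b1 := abs_le.1 (b z v hz hv)
  have b2 := abs_le.1 (b z m hz hm)
  have b3 := abs_le.1 (b v m hv hm)
  have b4 : ‖m‖ ^ 2 ≤ M ^ 2 := pow_le_pow_left₀ (norm_nonneg _) hm 2
  linarith [b1.2, b2.1, b3.1]

end Pool.Agent.P.MP_ba1a3e_pr
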