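import Mathlib
import Pool.Agent.P.MP_ba1a3e_pr.Mix
import Pool.Agent.P.MP_ba1a3e_pr.Defs

namespace Pool.Agent.P.MP_ba1a3e_pr

open MeasureTheory ProbabilityTheory Real
open scoped ENNReal RealInnerProductSpace Topology

variable {E : Type} [NormedAddCommGroup E] [InnerProductSpace ℝ E] [FiniteDimensional ℝ E]
  [MeasurableSpace E] [BorelSpace E]
  {M : ℝ} {μ : Measure E} [IsProbabilityMeasure μ] {ν : Measure E} [IsProbabilityMeasure ν]

/-- The likelihood ratio. -/
noncomputable def ratio (μ ν : Measure E) (x : E) : ℝ := gfun μ x / gfun ν x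

theorem ratio_pos (hμ : ∀ᵐ z ∂μ, ‖z‖ ≤ M) (hν : ∀ᵐ z ∂ν, ‖z‖ ≤ M) (x : E) : 0 < ratio μ ν x :=
  div_pos (gfun_pos hμ x) (gfun_pos hν x)

theorem continuous_ratio (hμ : ∀ᵐ z ∂μ, ‖z‖ ≤ M) (hν : ∀ᵐ z ∂ν, ‖z‖ ≤ M) :
    Continuous (ratio μ ν) :=
  (differentiable_gfun hμ).continuous.div (differentiable_gfun hν).continuous
    fun x => (gfun_pos hν x).ne'

theorem pi_sq_le : π ^ 2 ≤ 10 := by
  have := pi_lt_d2
  have := pi_pos
  nlinarith

theorem exp_five_quarters : exp (5 / 4) ≤ 4 := by
  have h1 : exp (5 / 4 : ℝ) = exp 1 * exp (1 / 4) := by rw [← exp_add]; norm_num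
  have h2 := exp_one_lt_d9
  have h3 : exp (1 / 4 : ℝ) ≤ 1 / (1 - 1 / 4) := exp_bound_div_one_sub_of_interval (by norm_num)
    (by norm_num)
  rw [h1]
  calc exp 1 * exp (1 / 4) ≤ 3 * (1 / (1 - 1 / 4)) :=
        mul_le_mul (by linarith) h3 (exp_pos _).le (by norm_num)
    _ = 4 := by norm_num

theorem log_four_le : log 4 ≤ 3 / 2 := by
  have h1 : log (4 : ℝ) = 2 * log 2 := by
    rw [show (4 : ℝ) = 2 ^ 2 by norm_num, log_pow]; norm_num
  have := log_two_lt_d9
  linarith

/-- The two component bounds. -/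
theorem component (hM : 0 ≤ M) (hμ : ∀ᵐ z ∂μ, ‖z‖ ≤ M) (hν : ∀ᵐ z ∂ν, ‖z‖ ≤ M)
    {z : E} (hz : ‖z‖ ≤ M) :
    (∫⁻ y in {y | 4 < ratio μ ν (z + y)}, ENNReal.ofReal (ratio μ ν (z + y)) ∂stdGaussian E ≤
      ENNReal.ofReal (44 * exp (5 * M ^ 2)) * stdGaussian E {y | 4 < ratio μ ν (z + y)}) ∧
    (∫⁻ y in {y | 4 < ratio μ ν (z + y)}, ENNReal.ofReal (log (ratio μ ν (z + y)))
      ∂stdGaussian E ≤
      ENNReal.ofReal (19 * (1 + M ^ 2)) * stdGaussian E {y | 4 < ratio μ ν (z + y)}) := by
  set γ := stdGaussian E with hγ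
  let L : E → ℝ := fun y => log (gfun μ (z + y)) - log (gfun ν (z + y)) - log 4
  have hL1 : ∀ y, log (ratio μ ν (z + y)) = L y + log 4 := by
    intro y
    rw [ratio, log_div (gfun_pos hμ _).ne' (gfun_pos hν _).ne']
    simp [L]
  have hA : {y | 4 < ratio μ ν (z + y)} = {y | 0 < L y} := by
    ext y
    simp only [Set.mem_ofPred_eq]
    rw [← log_lt_log_iff (by norm_num) (ratio_pos hμ hν _), hL1]
    simp
  have hd : ∀ (ρ : Measure E) [IsProbabilityMeasure ρ], (∀ᵐ z ∂ρ, ‖z‖ ≤ M) →
      Differentiable ℝ fun y => log (gfun ρ (z + y)) := fun ρ _ hρ =>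
    ((differentiable_gfun hρ).comp (differentiable_id.const_add z)).log
      fun y => (gfun_pos hρ _).ne'
  have hLd : Differentiable ℝ L := ((hd μ hμ).sub (hd ν hν)).sub_const _
  have hLK : ∀ x, ‖fderiv ℝ L x‖ ≤ 2 * M := by
    intro x
    refine norm_fderiv_le_of_lip' ℝ (by positivity) (Filter.Eventually.of_forall fun y => ?_)
    have h1 := abs_le.1 (log_gfun_lip hμ (z + y) (z + x))
    have h2 := abs_le.1 (log_gfun_lip hν (z + y) (z + x))
    rw [add_sub_add_left_eq_sub] at h1 h2
    rw [Real.norm_eq_abs, abs_le]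
    simp only [L]
    constructor <;> linarith [h1.1, h1.2, h2.1, h2.2]
  have hLm : Measurable L := hLd.continuous.measurable
  have hpsi : Measurable psi :=
    (show Differentiable ℝ psi from fun u => (hasDerivAt_psi u).differentiableAt).continuous.measurable
  rw [hA]
  set a := γ {y | 0 < L y} with ha
  rcases le_total a 2⁻¹ with h | h
  · constructor
    · have h1 := relative_tail hLd hLK zero_le_one h
      calc _ ≤ ∫⁻ y in {y | 0 < L y}, ENNReal.ofReal 11 *
            ENNReal.ofReal (exp (1 * psi (L y))) ∂γ := by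
            refine lintegral_mono fun y => ?_
            rw [← ENNReal.ofReal_mul (by norm_num), one_mul]
            refine ENNReal.ofReal_le_ofReal ?_
            rw [← exp_log (ratio_pos hμ hν (z + y)), hL1, exp_add, exp_log (by norm_num)]
            have h2 : exp (L y) ≤ exp 1 * exp (psi (L y)) := by
              rw [← exp_add]; exact exp_le_exp.2 (by linarith [le_psi (L y)])
            have h3 := exp_one_lt_d9
            have h4 := exp_pos (psi (L y))
            nlinarith
        _ ≤ ENNReal.ofReal 11 * (4 * ENNReal.ofReal (exp (π ^ 2 * (1 * (2 * M)) ^ 2 / 8)) * a) := by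
            rw [lintegral_const_mul' _ _ ENNReal.ofReal_ne_top]
            exact mul_le_mul_right h1 _
        _ ≤ _ := by
            rw [← mul_assoc]
            refine mul_le_mul_left ?_ _
            rw [show (4 : ℝ≥0∞) = ENNReal.ofReal 4 by simp, ← ENNReal.ofReal_mul (by norm_num),
              ← ENNReal.ofReal_mul (by norm_num)]
            refine ENNReal.ofReal_le_ofReal ?_
            have : exp (π ^ 2 * (1 * (2 * M)) ^ 2 / 8) ≤ exp (5 * M ^ 2) :=
              exp_le_exp.2 (by nlinarith [pi_sq_le, sq_nonneg M])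
            linarith
    · have hc : 0 < 1 + 2 * M := by positivity
      have h1 := relative_tail hLd hLK (c := (1 + 2 * M)⁻¹) (by positivity) h
      calc _ ≤ ∫⁻ y in {y | 0 < L y}, ENNReal.ofReal (5 / 2) + ENNReal.ofReal ((1 + 2 * M) / 2) *
            ENNReal.ofReal (exp ((1 + 2 * M)⁻¹ * psi (L y))) ∂γ := by
            refine lintegral_mono fun y => ?_
            rw [← ENNReal.ofReal_mul (by positivity),
              ← ENNReal.ofReal_add (by norm_num) (by positivity)]
            refine ENNReal.ofReal_le_ofReal ?_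
            rw [hL1]
            have h2 : 2 * ((1 + 2 * M)⁻¹ * psi (L y)) ≤ exp ((1 + 2 * M)⁻¹ * psi (L y)) :=
              two_mul_le_exp
            have h3 : psi (L y) = (1 + 2 * M) / 2 * (2 * ((1 + 2 * M)⁻¹ * psi (L y))) := by
              field_simp
            have h4 := mul_le_mul_of_nonneg_left h2 (show 0 ≤ (1 + 2 * M) / 2 by positivity)
            linarith [le_psi (L y), log_four_le]
        _ ≤ ENNReal.ofReal (5 / 2) * a + ENNReal.ofReal ((1 + 2 * M) / 2) *
            (4 * ENNReal.ofReal (exp (π ^ 2 * ((1 + 2 * M)⁻¹ * (2 * M)) ^ 2 / 8)) * a) := by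
            rw [lintegral_add_left measurable_const, setLIntegral_const,
              lintegral_const_mul' _ _ ENNReal.ofReal_ne_top]
            exact add_le_add le_rfl (mul_le_mul_right h1 _)
        _ ≤ _ := by
            rw [← mul_assoc, ← add_mul]
            refine mul_le_mul_left ?_ _
            rw [show (4 : ℝ≥0∞) = ENNReal.ofReal 4 by simp, ← ENNReal.ofReal_mul (by norm_num),
              ← ENNReal.ofReal_mul (by positivity),
              ← ENNReal.ofReal_add (by norm_num) (by positivity)]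
            refine ENNReal.ofReal_le_ofReal ?_
            have h2 : (1 + 2 * M)⁻¹ * (2 * M) ≤ 1 := by
              rw [inv_mul_le_iff₀ hc]; linarith
            have h3 : ((1 + 2 * M)⁻¹ * (2 * M)) ^ 2 ≤ 1 :=
              pow_le_one₀ (by positivity) h2
            have h4 : exp (π ^ 2 * ((1 + 2 * M)⁻¹ * (2 * M)) ^ 2 / 8) ≤ 4 := by
              refine le_trans (exp_le_exp.2 ?_) exp_five_quarters
              have := mul_le_mul pi_sq_le h3 (by positivity) (by norm_num)
              linarith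
            have h5 := mul_le_mul_of_nonneg_left h4 (show 0 ≤ (1 + 2 * M) / 2 * 4 by positivity)
            nlinarith [sq_nonneg (M - 1)]
  · have h0 : ∫⁻ y, ENNReal.ofReal (ratio μ ν (z + y)) ∂γ ≤ ENNReal.ofReal (exp (4 * M ^ 2)) :=
      lintegral_ratio_le hM hμ hν hz
    have key : ∀ s t : ℝ, 0 ≤ s → 2 * s ≤ t → ENNReal.ofReal s ≤ ENNReal.ofReal t * a := by
      intro s t hs hst
      refine le_trans ?_ (mul_le_mul (ENNReal.ofReal_le_ofReal hst) h zero_le zero_le)
      rw [ENNReal.ofReal_mul (by norm_num), ENNReal.ofReal_ofNat, mul_comm 2, mul_assoc,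
        ENNReal.mul_inv_cancel (by simp) (by simp), mul_one]
    constructor
    · refine ((setLIntegral_le_lintegral _ _).trans h0).trans (key _ _ (exp_pos _).le ?_)
      have : exp (4 * M ^ 2) ≤ exp (5 * M ^ 2) := exp_le_exp.2 (by nlinarith [sq_nonneg M])
      linarith [exp_pos (4 * M ^ 2)]
    · refine (setLIntegral_le_lintegral _ _).trans
        (le_trans ?_ (key (4 * M ^ 2 + 1) _ (by positivity) (by nlinarith [sq_nonneg M])))
      calc _ ≤ ∫⁻ y, ENNReal.ofReal (4 * M ^ 2) + ENNReal.ofReal (exp (-(4 * M ^ 2))) *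
            ENNReal.ofReal (ratio μ ν (z + y)) ∂γ := by
            refine lintegral_mono fun y => ?_
            have hr := ratio_pos hμ hν (z + y)
            rw [← ENNReal.ofReal_mul (exp_pos _).le,
              ← ENNReal.ofReal_add (by positivity) (by positivity)]
            refine ENNReal.ofReal_le_ofReal ?_
            have h2 := log_le_sub_one_of_pos (mul_pos (exp_pos (-(4 * M ^ 2))) hr)
            rw [log_mul (exp_pos _).ne' hr.ne', log_exp] at h2
            linarith
        _ ≤ ENNReal.ofReal (4 * M ^ 2) + ENNReal.ofReal (exp (-(4 * M ^ 2))) *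
            ENNReal.ofReal (exp (4 * M ^ 2)) := by
            rw [lintegral_add_left measurable_const, lintegral_const, measure_univ, mul_one,
              lintegral_const_mul' _ _ ENNReal.ofReal_ne_top]
            exact add_le_add le_rfl (mul_le_mul_right h0 _)
        _ = _ := by
            rw [← ENNReal.ofReal_mul (exp_pos _).le, ← exp_add, neg_add_cancel, exp_zero,
              ENNReal.ofReal_add (by positivity) (by norm_num)]

theorem mixE_pos (hμ : ∀ᵐ z ∂μ, ‖z‖ ≤ M) (x : E) : 0 < mixE μ x := by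
  rw [mixE_eq]; exact mul_pos (phi_pos x) (gfun_pos hμ x)

theorem continuous_mixE (hμ : ∀ᵐ z ∂μ, ‖z‖ ≤ M) : Continuous (mixE μ) := by
  have : mixE μ = fun x => phi x * gfun μ x := funext (mixE_eq μ)
  rw [this]
  exact continuous_phi.mul (differentiable_gfun hμ).continuous

omit [FiniteDimensional ℝ E] [BorelSpace E] in
theorem mixE_div (μ ν : Measure E) (x : E) : mixE μ x / mixE ν x = ratio μ ν x := by
  rw [mixE_eq, mixE_eq, mul_div_mul_left _ _ (phi_pos x).ne', ratio]

theorem integrable_mixE (hμ : ∀ᵐ z ∂μ, ‖z‖ ≤ M) :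
    Integrable (mixE μ) ∧ ∫ x, mixE μ x = 1 := by
  have h1 : ∫⁻ x, ENNReal.ofReal (mixE μ x) = 1 := by
    have := lintegral_mixE μ (h := fun _ => 1) measurable_const
    simpa using this
  have h2 : 0 ≤ᵐ[volume] mixE μ := ae_of_all _ fun x => (mixE_pos hμ x).le
  have h3 := (continuous_mixE hμ).aestronglyMeasurable (μ := volume)
  refine ⟨(lintegral_ofReal_ne_top_iff_integrable h3 h2).1 (by simp [h1]), ?_⟩
  rw [integral_eq_lintegral_of_nonneg_ae h2 h3, h1]
  simp

theorem integrable_hellinger (hμ : ∀ᵐ z ∂μ, ‖z‖ ≤ M) (hν : ∀ᵐ z ∂ν, ‖z‖ ≤ M) :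
    Integrable fun x => (√(mixE μ x) - √(mixE ν x)) ^ 2 := by
  have c1 := continuous_mixE hμ
  have c2 := continuous_mixE hν
  refine ((integrable_mixE hμ).1.add (integrable_mixE hν).1).mono' (by fun_prop)
    (ae_of_all _ fun x => ?_)
  rw [Real.norm_eq_abs, abs_of_nonneg (sq_nonneg _), Pi.add_apply]
  have h1 := sq_sqrt (mixE_pos hμ x).le
  have h2 := sq_sqrt (mixE_pos hν x).le
  have h3 := mul_nonneg (sqrt_nonneg (mixE μ x)) (sqrt_nonneg (mixE ν x))
  nlinarith

/-- Abstract comparison: a nonnegative integrand bounded by `9 H` off the set `r > 4` and by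
`f * k(r)` on it. -/
theorem compare (hμ : ∀ᵐ z ∂μ, ‖z‖ ≤ M) (hν : ∀ᵐ z ∂ν, ‖z‖ ≤ M) {u : E → ℝ}
    (hu : Continuous u) (hu0 : ∀ x, 0 ≤ u x) {k : ℝ → ℝ} (hk : Measurable k) {C : ℝ} (hC : 0 ≤ C)
    (h1 : ∀ x, ratio μ ν x ≤ 4 → u x ≤ 9 * (√(mixE μ x) - √(mixE ν x)) ^ 2)
    (h2 : ∀ x, 4 < ratio μ ν x → u x ≤ mixE μ x * k (ratio μ ν x))
    (h3 : ∀ z : E, ‖z‖ ≤ M → ∫⁻ y in {y | 4 < ratio μ ν (z + y)},
      ENNReal.ofReal (k (ratio μ ν (z + y))) ∂stdGaussian E ≤
      ENNReal.ofReal C * stdGaussian E {y | 4 < ratio μ ν (z + y)}) :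
    Integrable u ∧ ∫ x, u x ≤ (9 + 4 * C) * ∫ x, (√(mixE μ x) - √(mixE ν x)) ^ 2 := by
  have c1 := continuous_mixE hμ
  have c2 := continuous_mixE hν
  have c3 := continuous_ratio hμ hν
  set A := {x | 4 < ratio μ ν x} with hA
  have hAm : MeasurableSet A := measurableSet_lt measurable_const c3.measurable
  have hAz : ∀ z : E, MeasurableSet {y | 4 < ratio μ ν (z + y)} := fun z =>
    measurableSet_lt measurable_const (by fun_prop)
  set H : E → ℝ := fun x => (√(mixE μ x) - √(mixE ν x)) ^ 2 with hH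
  have hHi : Integrable H := integrable_hellinger hμ hν
  have hH0 : ∀ x, 0 ≤ H x := fun x => sq_nonneg _
  have m1 : Measurable (A.indicator fun x => ENNReal.ofReal (k (ratio μ ν x))) :=
    Measurable.indicator (by have := c3.measurable; fun_prop) hAm
  have m2 : Measurable (A.indicator (1 : E → ℝ≥0∞)) := measurable_one.indicator hAm
  have s1 : ∫⁻ x, ENNReal.ofReal (mixE μ x) *
      A.indicator (fun x => ENNReal.ofReal (k (ratio μ ν x))) x ≤
      ENNReal.ofReal C * ∫⁻ x, ENNReal.ofReal (mixE μ x) * A.indicator 1 x := by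
    rw [lintegral_mixE μ m1, lintegral_mixE μ m2, ← lintegral_const_mul' _ _ ENNReal.ofReal_ne_top]
    refine lintegral_mono_ae ?_
    filter_upwards [hμ] with z hz
    have e1 : ∀ y, A.indicator (fun x => ENNReal.ofReal (k (ratio μ ν x))) (z + y) =
        {y | 4 < ratio μ ν (z + y)}.indicator
          (fun y => ENNReal.ofReal (k (ratio μ ν (z + y)))) y := fun y => rfl
    have e2 : ∀ y, A.indicator (1 : E → ℝ≥0∞) (z + y) =
        {y | 4 < ratio μ ν (z + y)}.indicator 1 y := fun y => rfl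
    simp_rw [e1, e2]
    rw [lintegral_indicator (hAz z), lintegral_indicator_one (hAz z)]
    exact h3 z hz
  have s2 : ∫⁻ x, ENNReal.ofReal (mixE μ x) * A.indicator 1 x ≤
      ENNReal.ofReal 4 * ∫⁻ x, ENNReal.ofReal (H x) := by
    rw [← lintegral_const_mul' _ _ ENNReal.ofReal_ne_top]
    refine lintegral_mono fun x => ?_
    by_cases hx : x ∈ A
    · rw [Set.indicator_of_mem hx, Pi.one_apply, mul_one, ← ENNReal.ofReal_mul (by norm_num)]
      refine ENNReal.ofReal_le_ofReal ?_
      have h4 : 4 < mixE μ x / mixE ν x := by rw [mixE_div]; exact hx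
      rw [lt_div_iff₀ (mixE_pos hν x)] at h4
      have h5 := sq_sqrt (mixE_pos hμ x).le
      have h6 := sq_sqrt (mixE_pos hν x).le
      have h7 := sqrt_nonneg (mixE μ x)
      have h8 := sqrt_nonneg (mixE ν x)
      have h9 : 2 * √(mixE ν x) ≤ √(mixE μ x) := by
        refine le_of_sq_le_sq ?_ h7
        nlinarith
      simp only [hH]
      nlinarith
    · simp [Set.indicator_of_notMem hx]
  have s3 : ∫⁻ x, ENNReal.ofReal (u x) ≤ ENNReal.ofReal ((9 + 4 * C) * ∫ x, H x) := by
    calc ∫⁻ x, ENNReal.ofReal (u x)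
        ≤ ∫⁻ x, ENNReal.ofReal 9 * ENNReal.ofReal (H x) + ENNReal.ofReal (mixE μ x) *
            A.indicator (fun x => ENNReal.ofReal (k (ratio μ ν x))) x := by
          refine lintegral_mono fun x => ?_
          by_cases hx : x ∈ A
          · rw [Set.indicator_of_mem hx, ← ENNReal.ofReal_mul (mixE_pos hμ x).le]
            exact le_add_left (ENNReal.ofReal_le_ofReal (h2 x hx))
          · rw [← ENNReal.ofReal_mul (by norm_num)]
            exact le_add_right (ENNReal.ofReal_le_ofReal (h1 x (not_lt.1 hx)))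
      _ ≤ ENNReal.ofReal 9 * (∫⁻ x, ENNReal.ofReal (H x)) +
            ENNReal.ofReal C * (ENNReal.ofReal 4 * ∫⁻ x, ENNReal.ofReal (H x)) := by
          rw [lintegral_add_left (by simp only [hH]; fun_prop),
            lintegral_const_mul' _ _ ENNReal.ofReal_ne_top]
          exact add_le_add le_rfl (s1.trans (mul_le_mul_right s2 _))
      _ = _ := by
          rw [← ofReal_integral_eq_lintegral_ofReal hHi (ae_of_all _ hH0), ← mul_assoc, ← add_mul,
            ← ENNReal.ofReal_mul hC, ← ENNReal.ofReal_add (by norm_num) (by positivity),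
            ← ENNReal.ofReal_mul (by positivity), mul_comm C]
  have hui : Integrable u := (lintegral_ofReal_ne_top_iff_integrable hu.aestronglyMeasurable
    (ae_of_all _ hu0)).1 (ne_top_of_le_ne_top ENNReal.ofReal_ne_top s3)
  refine ⟨hui, ?_⟩
  rw [← ofReal_integral_eq_lintegral_ofReal hui (ae_of_all _ hu0)] at s3
  exact (ENNReal.ofReal_le_ofReal_iff (mul_nonneg (by positivity) (integral_nonneg hH0))).1 s3

theorem chi_pointwise {f g : ℝ} (hf : 0 < f) (hg : 0 < g) (h : f / g ≤ 4) :
    (f - g) ^ 2 / g ≤ 9 * (√f - √g) ^ 2 := by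
  rw [div_le_iff₀ hg] at h ⊢
  have h5 := sq_sqrt hf.le
  have h6 := sq_sqrt hg.le
  have h7 := sqrt_nonneg f
  have h8 := sqrt_nonneg g
  have h9 : √f ≤ 2 * √g := by
    refine le_of_sq_le_sq ?_ (by positivity)
    nlinarith
  have h10 : (√f + √g) ^ 2 ≤ 9 * g := by nlinarith
  calc (f - g) ^ 2 = (√f - √g) ^ 2 * (√f + √g) ^ 2 := by
        rw [← mul_pow]; congr 1; nlinarith
    _ ≤ (√f - √g) ^ 2 * (9 * g) := mul_le_mul_of_nonneg_left h10 (sq_nonneg _)
    _ = _ := by ring

theorem chi_bound (hM : 0 ≤ M) (hμ : ∀ᵐ z ∂μ, ‖z‖ ≤ M) (hν : ∀ᵐ z ∂ν, ‖z‖ ≤ M) :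
    Integrable (fun x => (mixE μ x - mixE ν x) ^ 2 / mixE ν x) ∧
    ∫ x, (mixE μ x - mixE ν x) ^ 2 / mixE ν x ≤
      200 * exp (5 * M ^ 2) * ∫ x, (√(mixE μ x) - √(mixE ν x)) ^ 2 := by
  have c1 := continuous_mixE hμ
  have c2 := continuous_mixE hν
  obtain ⟨h1, h2⟩ := compare hμ hν (u := fun x => (mixE μ x - mixE ν x) ^ 2 / mixE ν x)
    (Continuous.div (by fun_prop) c2 fun x => (mixE_pos hν x).ne')
    (fun x => div_nonneg (sq_nonneg _) (mixE_pos hν x).le) (k := fun r => r) measurable_id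
    (C := 44 * exp (5 * M ^ 2)) (by positivity)
    (fun x hx => chi_pointwise (mixE_pos hμ x) (mixE_pos hν x) (by rwa [mixE_div]))
    (fun x hx => by
      rw [← mixE_div] at hx ⊢
      have hf := mixE_pos hμ x
      have hg := mixE_pos hν x
      rw [lt_div_iff₀ hg] at hx
      rw [← mul_div_assoc]
      exact div_le_div_of_nonneg_right (by nlinarith) hg.le)
    fun z hz => (component hM hμ hν hz).1
  refine ⟨h1, h2.trans (mul_le_mul_of_nonneg_right ?_ (integral_nonneg fun x => sq_nonneg _))⟩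
  have : 1 ≤ exp (5 * M ^ 2) := one_le_exp (by positivity)
  linarith

theorem kl_bound (hM : 0 ≤ M) (hμ : ∀ᵐ z ∂μ, ‖z‖ ≤ M) (hν : ∀ᵐ z ∂ν, ‖z‖ ≤ M) :
    Integrable (fun x => mixE μ x * log (mixE μ x / mixE ν x)) ∧
    ∫ x, mixE μ x * log (mixE μ x / mixE ν x) ≤
      100 * (1 + M ^ 2) * ∫ x, (√(mixE μ x) - √(mixE ν x)) ^ 2 := by
  have c1 := continuous_mixE hμ
  have c2 := continuous_mixE hν
  obtain ⟨h1, h2⟩ := compare hμ hν
    (u := fun x => mixE μ x * log (mixE μ x / mixE ν x) - mixE μ x + mixE ν x)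
    (((c1.mul ((c1.div c2 fun x => (mixE_pos hν x).ne').log
      fun x => (div_pos (mixE_pos hμ x) (mixE_pos hν x)).ne')).sub c1).add c2)
    (fun x => by
      have hf := mixE_pos hμ x
      have hg := mixE_pos hν x
      have h := one_sub_inv_le_log_of_pos (div_pos hf hg)
      have h' := mul_le_mul_of_nonneg_left h hf.le
      have : mixE μ x * (1 - (mixE μ x / mixE ν x)⁻¹) = mixE μ x - mixE ν x := by field_simp
      linarith)
    (k := log) measurable_log (C := 19 * (1 + M ^ 2)) (by positivity)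
    (fun x hx => by
      have hf := mixE_pos hμ x
      have hg := mixE_pos hν x
      refine le_trans ?_ (chi_pointwise hf hg (by rwa [mixE_div]))
      have h := log_le_sub_one_of_pos (div_pos hf hg)
      have h' := mul_le_mul_of_nonneg_left h hf.le
      have : mixE μ x * (mixE μ x / mixE ν x - 1) - mixE μ x + mixE ν x =
          (mixE μ x - mixE ν x) ^ 2 / mixE ν x := by field_simp; ring
      linarith)
    (fun x hx => by
      rw [← mixE_div] at hx ⊢
      have hg := mixE_pos hν x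
      rw [lt_div_iff₀ hg] at hx
      linarith)
    fun z hz => (component hM hμ hν hz).2
  obtain ⟨i1, j1⟩ := integrable_mixE hμ
  obtain ⟨i2, j2⟩ := integrable_mixE hν
  have h3 : Integrable (fun x => mixE μ x * log (mixE μ x / mixE ν x)) :=
    ((h1.sub i2).add i1).congr (ae_of_all _ fun x => by simp)
  refine ⟨h3, ?_⟩
  have h4 : Integrable (fun x => mixE μ x * log (mixE μ x / mixE ν x) - mixE μ x) := h3.sub i1
  rw [integral_add h4 i2, integral_sub h3 i1, j1, j2, sub_add_cancel] at h2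
  refine h2.trans (mul_le_mul_of_nonneg_right ?_ (integral_nonneg fun x => sq_nonneg _))
  nlinarith [sq_nonneg M]

theorem mixDensity_eq {d : ℕ} (μ : Measure (EuclideanSpace ℝ (Fin d))) :
    mixDensity μ = mixE μ := by
  funext x
  simp [mixDensity, mixE, phi]

theorem ae_of_support {d : ℕ} {μ : Measure (EuclideanSpace ℝ (Fin d))} {M : ℝ}
    (h : μ.support ⊆ Metric.closedBall 0 M) : ∀ᵐ z ∂μ, ‖z‖ ≤ M := by
  filter_upwards [Measure.support_mem_ae (μ := μ)] with z hz
  simpa using h hz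

end Pool.Agent.P.MP_ba1a3e_pr
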